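import Pool.Agent.D0H82.SX.StmW
import Pool.Agent.D0H82.SR.P

set_option autoImplicit false

/-! Project SX (helper82), module MSW: the mean square of the weighted remainder. -/

namespace Pool.Agent.D0H49.SX

open Complex Filter Topology MeasureTheory Set
open Pool.Agent.TH612.CF Pool.Agent.TH612.GS
open Pool.Agent.D0H82.SR Pool.Agent.D0H82.SX

/-- Cauchy's inequality on an interval -/
theorem cs_int (f : ℝ → ℝ) (hf : Continuous f) (S : ℝ) (hS : 0 < S) :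
    (S⁻¹ * ∫ t in (0:ℝ)..S, f t) ^ 2 ≤ S⁻¹ * ∫ t in (0:ℝ)..S, f t ^ 2 := by
  set c : ℝ := S⁻¹ * ∫ t in (0:ℝ)..S, f t with hc
  have h1 : 0 ≤ ∫ t in (0:ℝ)..S, (f t - c) ^ 2 :=
    intervalIntegral.integral_nonneg hS.le fun t _ => sq_nonneg _
  have h2 : ∫ t in (0:ℝ)..S, (f t - c) ^ 2 =
      (∫ t in (0:ℝ)..S, f t ^ 2) - 2 * c * (∫ t in (0:ℝ)..S, f t) + c ^ 2 * S := by
    have e : (fun t => (f t - c) ^ 2) = fun t => (f t ^ 2 - 2 * c * f t) + c ^ 2 := by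
      funext t
      ring
    rw [e, intervalIntegral.integral_add, intervalIntegral.integral_sub,
      intervalIntegral.integral_const_mul, intervalIntegral.integral_const]
    · simp
      ring
    · exact (hf.pow 2).intervalIntegrable _ _
    · exact (continuous_const.mul hf).intervalIntegrable _ _
    · exact ((hf.pow 2).sub (continuous_const.mul hf)).intervalIntegrable _ _
    · exact continuous_const.intervalIntegrable _ _
  have h3 : ∫ t in (0:ℝ)..S, f t = S * c := by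
    rw [hc, ← mul_assoc, mul_inv_cancel₀ hS.ne', one_mul]
  rw [h2, h3] at h1
  rw [← mul_le_mul_iff_right₀ hS, ← mul_assoc S S⁻¹, mul_inv_cancel₀ hS.ne', one_mul]
  nlinarith

theorem ms_abs {Ω : Type*} [MeasurableSpace Ω] (μ : Measure Ω) [SFinite μ] (E : Set Ω)
    (hE : MeasurableSet E) (D : ℝ → Ω → ℂ) (hc : ∀ γ, Continuous fun t => D t γ)
    (hm : ∀ t, Measurable (E.indicator (D t))) (V : Ω → ℂ) (S K M : ℝ) (hS : 0 < S)
    (hM : 0 ≤ M)
    (hV : ∀ γ ∈ E, ‖V γ‖ ≤ K * ‖D S γ‖ + K * (S⁻¹ * ∫ t in (0:ℝ)..S, ‖D t γ‖))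
    (hD : ∀ t ∈ Icc (0:ℝ) S, ∫⁻ γ in E, ENNReal.ofReal (‖D t γ‖ ^ 2) ∂μ ≤ ENNReal.ofReal M) :
    ∫⁻ γ in E, ENNReal.ofReal (‖V γ‖ ^ 2) ∂μ ≤ ENNReal.ofReal (4 * K ^ 2 * M) := by
  let u : ℝ → Ω → ENNReal := fun t γ => ENNReal.ofReal (‖E.indicator (D t) γ‖ ^ 2)
  have hum : ∀ t, Measurable (u t) := fun t => ((hm t).norm.pow_const 2).ennreal_ofReal
  have huc : ∀ γ, Continuous fun t => u t γ := by
    intro γ
    refine ENNReal.continuous_ofReal.comp ((Continuous.norm ?_).pow 2)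
    by_cases h : γ ∈ E
    · simp only [indicator_of_mem h]
      exact hc γ
    · simp only [indicator_of_notMem h]
      exact continuous_const
  have hjoint : Measurable (Function.uncurry u) :=
    measurable_uncurry_of_continuous_of_measurable huc hum
  have hjoint' : Measurable (fun p : Ω × ℝ => u p.2 p.1) := hjoint.comp measurable_swap
  have huE : ∀ t, ∀ γ ∈ E, u t γ = ENNReal.ofReal (‖D t γ‖ ^ 2) := by
    intro t γ hγ
    change ENNReal.ofReal (‖E.indicator (D t) γ‖ ^ 2) = _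
    rw [indicator_of_mem hγ]
  have huD : ∀ t ∈ Icc (0:ℝ) S, ∫⁻ γ in E, u t γ ∂μ ≤ ENNReal.ofReal M := by
    intro t ht
    rw [setLIntegral_congr_fun hE (huE t)]
    exact hD t ht
  have hpt : ∀ γ ∈ E, ENNReal.ofReal (‖V γ‖ ^ 2) ≤ ENNReal.ofReal (2 * K ^ 2) * u S γ +
      ENNReal.ofReal (2 * K ^ 2 * S⁻¹) * ∫⁻ t in Ioc (0:ℝ) S, u t γ := by
    intro γ hγ
    have hcn : Continuous fun t => ‖D t γ‖ := (hc γ).norm
    have h1 := cs_int (fun t => ‖D t γ‖) hcn S hS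
    have h2 : ‖V γ‖ ^ 2 ≤ 2 * K ^ 2 * ‖D S γ‖ ^ 2 +
        2 * K ^ 2 * S⁻¹ * ∫ t in (0:ℝ)..S, ‖D t γ‖ ^ 2 := by
      have h3 := hV γ hγ
      have h4 : ‖V γ‖ ^ 2 ≤ (K * ‖D S γ‖ + K * (S⁻¹ * ∫ t in (0:ℝ)..S, ‖D t γ‖)) ^ 2 :=
        pow_le_pow_left₀ (norm_nonneg _) h3 2
      have h5 : (K * ‖D S γ‖ + K * (S⁻¹ * ∫ t in (0:ℝ)..S, ‖D t γ‖)) ^ 2 ≤
          2 * K ^ 2 * ‖D S γ‖ ^ 2 + 2 * K ^ 2 * (S⁻¹ * ∫ t in (0:ℝ)..S, ‖D t γ‖) ^ 2 := by
        nlinarith [sq_nonneg (K * ‖D S γ‖ - K * (S⁻¹ * ∫ t in (0:ℝ)..S, ‖D t γ‖))]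
      have h6 := mul_le_mul_of_nonneg_left h1 (by positivity : 0 ≤ 2 * K ^ 2)
      calc _ ≤ _ := h4
        _ ≤ _ := h5
        _ ≤ _ := by linarith
    have h7 : ENNReal.ofReal (∫ t in (0:ℝ)..S, ‖D t γ‖ ^ 2) = ∫⁻ t in Ioc (0:ℝ) S, u t γ := by
      rw [intervalIntegral.integral_of_le hS.le, ofReal_integral_eq_lintegral_ofReal]
      · refine lintegral_congr fun t => ?_
        rw [huE t γ hγ]
      · exact ((hcn.pow 2).integrableOn_Ioc)
      · exact Filter.Eventually.of_forall fun t => sq_nonneg _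
    have h8 : 0 ≤ ∫ t in (0:ℝ)..S, ‖D t γ‖ ^ 2 :=
      intervalIntegral.integral_nonneg hS.le fun t _ => sq_nonneg _
    rw [huE S γ hγ, ← h7, ← ENNReal.ofReal_mul (by positivity), ← ENNReal.ofReal_mul (by positivity),
      ← ENNReal.ofReal_add (by positivity) (by positivity)]
    exact ENNReal.ofReal_le_ofReal h2
  calc ∫⁻ γ in E, ENNReal.ofReal (‖V γ‖ ^ 2) ∂μ
      ≤ ∫⁻ γ in E, (ENNReal.ofReal (2 * K ^ 2) * u S γ +
        ENNReal.ofReal (2 * K ^ 2 * S⁻¹) * ∫⁻ t in Ioc (0:ℝ) S, u t γ) ∂μ :=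
        setLIntegral_mono' hE hpt
    _ = ENNReal.ofReal (2 * K ^ 2) * ∫⁻ γ in E, u S γ ∂μ +
        ENNReal.ofReal (2 * K ^ 2 * S⁻¹) * ∫⁻ γ in E, (∫⁻ t in Ioc (0:ℝ) S, u t γ) ∂μ := by
        rw [lintegral_add_left ((hum S).const_mul _), lintegral_const_mul _ (hum S),
          lintegral_const_mul' _ _ ENNReal.ofReal_ne_top]
    _ = ENNReal.ofReal (2 * K ^ 2) * ∫⁻ γ in E, u S γ ∂μ +
        ENNReal.ofReal (2 * K ^ 2 * S⁻¹) * ∫⁻ t in Ioc (0:ℝ) S, (∫⁻ γ in E, u t γ ∂μ) := by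
        rw [lintegral_lintegral_swap]
        exact hjoint'.aemeasurable
    _ ≤ ENNReal.ofReal (2 * K ^ 2) * ENNReal.ofReal M +
        ENNReal.ofReal (2 * K ^ 2 * S⁻¹) * ∫⁻ _t in Ioc (0:ℝ) S, ENNReal.ofReal M := by
        refine add_le_add (mul_le_mul' le_rfl (huD S ⟨hS.le, le_rfl⟩)) (mul_le_mul' le_rfl ?_)
        exact setLIntegral_mono' measurableSet_Ioc fun t ht => huD t ⟨ht.1.le, ht.2⟩
    _ = ENNReal.ofReal (4 * K ^ 2 * M) := by
        rw [setLIntegral_const, Real.volume_Ioc, sub_zero, ← ENNReal.ofReal_mul hM,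
          ← ENNReal.ofReal_mul (by positivity), ← ENNReal.ofReal_mul (by positivity),
          ← ENNReal.ofReal_add (by positivity) (by positivity)]
        congr 1
        field_simp
        ring


theorem t_MSW : S_BYP → S_MS → S_INV → S_MSW := by
  classical
  intro hB hMS hINV k w ε hε hw
  obtain ⟨C₀, T₀, hC₀, hT₀, h⟩ := hMS k ε hε
  obtain ⟨K1, hK1⟩ := isCompact_Icc.exists_bound_of_continuousOn
    (hw.continuous.continuousOn (s := Icc (0:ℝ) 1))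
  obtain ⟨K2, hK2⟩ := isCompact_Icc.exists_bound_of_continuousOn
    ((hw.continuous_deriv le_rfl).continuousOn (s := Icc (0:ℝ) 1))
  obtain ⟨K, hK⟩ : ∃ K, K = max K1 K2 := ⟨_, rfl⟩
  have hKw : ∀ x ∈ Icc (0:ℝ) 1, ‖w x‖ ≤ K ∧ ‖deriv w x‖ ≤ K := by
    intro x hx
    rw [hK]
    exact ⟨(hK1 x hx).trans (le_max_left _ _), (hK2 x hx).trans (le_max_right _ _)⟩
  refine ⟨4 * K ^ 2 * C₀ + 1, T₀, by positivity, hT₀, fun T S hT hS hST => ?_⟩
  have hT0 : 0 < T := by linarith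
  have hFc : ∀ γ : Fin k ⊕ Fin k → ℝ, Continuous fun t : ℝ => Zg γ t - ((Nat.factorial k : ℂ) ^ 2)⁻¹ *
      Qs t (fun i => (γ i : ℂ)) := fun γ => (Zg_cont γ).sub (continuous_const.mul (Qs_cont γ))
  have hc : ∀ γ : Fin k ⊕ Fin k → ℝ, Continuous fun t : ℝ => DD t γ := by
    intro γ
    exact intervalIntegral.continuous_primitive (fun a b => (hFc γ).intervalIntegrable a b) 0
  have hM : 0 ≤ C₀ * T ^ ε * T ^ (2 * k) * S := by positivity
  have hfin : SFinite (mP (Fin k ⊕ Fin k) T) := by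
    unfold mP
    infer_instance
  refine (ms_abs (mP (Fin k ⊕ Fin k) T) (Sep k T) (Sep_meas k T) (fun t γ => DD t γ) hc ?_
    (DW w S) S K (C₀ * T ^ ε * T ^ (2 * k) * S) hS hM ?_ ?_).trans ?_
  · intro t
    have h1 := DD_contOn (k := k) hINV (by linarith : (1:ℝ) ≤ T) t
    have h2 : Measurable ((Sep k T).piecewise (fun γ : Fin k ⊕ Fin k → ℝ => DD t γ) fun _ => (0 : ℂ)) :=
      h1.measurable_piecewise continuousOn_const (Sep_meas k T)
    have h3 : (Sep k T).piecewise (fun γ : Fin k ⊕ Fin k → ℝ => DD t γ) (fun _ => (0 : ℂ)) =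
        (Sep k T).indicator (fun γ => DD t γ) := Set.piecewise_eq_indicator
    rw [h3] at h2
    exact h2
  · intro γ _
    exact hB w _ S K hw (hFc γ) hS hKw
  · intro t ht
    refine (h T t hT ht.1 (ht.2.trans hST)).trans (ENNReal.ofReal_le_ofReal ?_)
    exact mul_le_mul_of_nonneg_left ht.2 (by positivity)
  · refine ENNReal.ofReal_le_ofReal ?_
    have h5 : 0 ≤ T ^ ε * T ^ (2 * k) * S := by positivity
    calc 4 * K ^ 2 * (C₀ * T ^ ε * T ^ (2 * k) * S) = (4 * K ^ 2 * C₀) * (T ^ ε * T ^ (2 * k) * S) := by ring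
      _ ≤ (4 * K ^ 2 * C₀ + 1) * (T ^ ε * T ^ (2 * k) * S) :=
        mul_le_mul_of_nonneg_right (by linarith) h5
      _ = _ := by ring

end Pool.Agent.D0H49.SX
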